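import Pool.Agent.N167.SG.Stm
import Pool.Agent.N27.TR.Smooth
import Pool.Agent.N97.TR.Boot

/-! SG/5: rapid decrease without sign condition (project SG of helper167). -/

set_option autoImplicit false

namespace Pool.Agent.N26.SG

open Set Filter Topology Pool.Agent.N167.TR Pool.Agent.N167.SG Pool.Agent.N27.TR Pool.Agent.N97.TR

theorem rapid_small {p : ℕ → ℝ} (hp : Rapid p) {s δ : ℝ} (hs : 0 < s) (hδ : 0 < δ) :
    ∃ N : ℕ, ∀ n, N ≤ n → s ^ n * p n ≤ δ := by
  obtain ⟨C, hC⟩ := hp (2 * s) (by positivity)
  have h1 : Tendsto (fun n : ℕ => C * ((1 / 2 : ℝ) ^ n)) atTop (𝓝 (C * 0)) :=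
    (tendsto_pow_atTop_nhds_zero_of_lt_one (by norm_num) (by norm_num)).const_mul C
  rw [mul_zero] at h1
  obtain ⟨N, hN⟩ := eventually_atTop.1 (h1.eventually (gt_mem_nhds hδ))
  refine ⟨N, fun n hn => ?_⟩
  have h2 := hN n hn
  have h3 := hC n
  rw [mul_pow] at h3
  have h4 : (0 : ℝ) < 2 ^ n := by positivity
  have h5 : s ^ n * p n ≤ C * (1 / 2) ^ n := by
    rw [one_div, inv_pow, ← div_eq_mul_inv, le_div_iff₀ h4]
    linarith
  linarith

theorem bd_nonneg {B D ν : ℝ} {A h : ℕ → ℝ} (hB : 0 < B) (hD : 0 < D) (hν : 0 < ν)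
    (hh : ∀ n, 0 ≤ h n) : ∀ n, 0 ≤ bd B D ν A h n := by
  intro n
  cases n with
  | zero => exact le_max_right _ _
  | succ n =>
    exact le_min (le_max_right _ _)
      (add_nonneg (hh _) (div_nonneg (mul_nonneg (pow_pos hB n).le (sq_nonneg _))
        (by positivity)))

theorem bd_le {B D ν : ℝ} {A h : ℕ → ℝ} (hA : ∀ n, 0 ≤ A n) :
    ∀ n, bd B D ν A h n ≤ A n := by
  intro n
  cases n with
  | zero => exact max_le le_rfl (hA 0)
  | succ n => exact (min_le_left _ _).trans (max_le le_rfl (hA _))

theorem smooth2 : S_smooth2 := by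
  intro M B D ν θ F A m y N₀ f x X hM hB hD hν hθ hF hf hX hXA hm hXm hcr hy hxy
  have hD0 : 0 < D := by linarith
  have hMR : (0 : ℝ) < M := by exact_mod_cast hM
  set p : ℕ → ℝ := fun n => max (m n) 0 with hp
  have hp0 : ∀ n, 0 ≤ p n := fun n => le_max_right _ _
  have hpR : Rapid p := rapid_pos hm
  set A' : ℕ → ℝ := fun n => max (A n) 0 + p n with hA'
  have hA'0 : ∀ n, 0 ≤ A' n := fun n => add_nonneg (le_max_right _ _) (hp0 n)
  have hlow : ∀ j, ∀ t, 0 ≤ t → -p j.length ≤ X j t := by
    intro j t ht
    have h1 := hXm j t ht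
    have h2 : m j.length ≤ p j.length := le_max_left _ _
    linarith
  have habs : ∀ j, ∀ t, 0 ≤ t → |X j t| ≤ A' j.length := by
    intro j t ht
    rw [abs_le]
    have h1 := hlow j t ht
    have h2 := hXA j t ht
    have h3 : A j.length ≤ max (A j.length) 0 := le_max_left _ _
    have h4 : 0 ≤ max (A j.length) 0 := le_max_right _ _
    have h5 := hp0 j.length
    simp only [hA']
    constructor <;> linarith
  set θ₀ : ℝ := max θ 0 with hθ₀
  have hθ₀0 : 0 ≤ θ₀ := le_max_right _ _
  have hθ₀1 : θ₀ < 1 := max_lt hθ one_pos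
  set θ₁ : ℝ := (1 + θ₀) / 2 with hθ₁
  have hθ₁0 : θ₀ < θ₁ := by rw [hθ₁]; linarith
  have hθ₁1 : θ₁ < 1 := by rw [hθ₁]; linarith
  -- the envelope
  obtain ⟨N₁, hN₁⟩ := rapid_small hpR hB (δ := (θ₁ - θ₀) * (ν * D) / (B / D)) (by
    have : 0 < θ₁ - θ₀ := by linarith
    positivity)
  have hcr' : ∀ n, N₀ + N₁ ≤ n → B / D * (B ^ n * A' n) ≤ θ₁ * (ν * D ^ (n + 1)) := by
    intro n hn
    have h1 := hcr n (by omega)
    have h2 : 0 < ν * D ^ (n + 1) := by positivity
    have h3 : B / D * (B ^ n * max (A n) 0) ≤ θ₀ * (ν * D ^ (n + 1)) := by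
      rcases le_total (A n) 0 with h | h
      · rw [max_eq_right h, mul_zero, mul_zero]
        positivity
      · rw [max_eq_left h]
        exact h1.trans (mul_le_mul_of_nonneg_right (le_max_left _ _) h2.le)
    have h4 : B / D * (B ^ n * p n) ≤ (θ₁ - θ₀) * (ν * D ^ (n + 1)) := by
      have h5 := hN₁ n (by omega)
      rw [le_div_iff₀ (by positivity)] at h5
      have h6 : D ≤ D ^ (n + 1) := le_self_pow₀ hD.le (by omega)
      have h7 : (θ₁ - θ₀) * (ν * D) ≤ (θ₁ - θ₀) * (ν * D ^ (n + 1)) := by
        refine mul_le_mul_of_nonneg_left ?_ (by linarith)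
        exact mul_le_mul_of_nonneg_left h6 hν.le
      linarith
    have h8 : B / D * (B ^ n * A' n) = B / D * (B ^ n * max (A n) 0) + B / D * (B ^ n * p n) := by
      simp only [hA']; ring
    rw [h8]
    linarith
  -- the loss of viscosity
  set e : ℝ := (1 - θ₁) / 2 with he
  have he0 : 0 < e := by rw [he]; linarith
  have he1 : 0 < 1 - e := by rw [he]; linarith
  obtain ⟨N₂, hN₂⟩ := rapid_small hpR hB (δ := e * ν * B / M) (by positivity)
  have hloss : ∀ n, N₂ ≤ n → B ^ (n + 1) * (M * p (n + 2)) ≤ e * (ν * D ^ (n + 1)) := by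
    intro n hn
    have h1 := hN₂ (n + 2) (by omega)
    rw [le_div_iff₀ hMR, pow_succ] at h1
    have h2 : B ^ (n + 1) * (M * p (n + 2)) * B ≤ e * ν * B := by
      calc B ^ (n + 1) * (M * p (n + 2)) * B = B ^ (n + 1) * B * p (n + 2) * M := by ring
        _ ≤ _ := h1
    have h3 : B ^ (n + 1) * (M * p (n + 2)) ≤ e * ν := le_of_mul_le_mul_right h2 hB
    have h4 : (1 : ℝ) ≤ D ^ (n + 1) := one_le_pow₀ hD.le
    calc B ^ (n + 1) * (M * p (n + 2)) ≤ e * ν := h3
      _ = e * (ν * 1) := by ring
      _ ≤ _ := by gcongr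
  set ν₁ : ℝ := (1 - e) * ν with hν₁
  have hν₁0 : 0 < ν₁ := by positivity
  set h : ℕ → ℝ := fun n => max (y n) 0 + max (F n) 0 / (ν₁ * D ^ n) + p n
    + (if n ≤ N₂ then A' n else 0) with hh
  have hfin0 : ∀ n, 0 ≤ (if n ≤ N₂ then A' n else 0) := by
    intro n
    split_ifs
    · exact hA'0 n
    · exact le_rfl
  have hF0 : ∀ n, 0 ≤ max (F n) 0 / (ν₁ * D ^ n) := fun n =>
    div_nonneg (le_max_right _ _) (by positivity)
  have hy0 : ∀ n, 0 ≤ max (y n) 0 := fun n => le_max_right _ _
  have hh0 : ∀ n, 0 ≤ h n := fun n =>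
    add_nonneg (add_nonneg (add_nonneg (hy0 n) (hF0 n)) (hp0 n)) (hfin0 n)
  have hhR : Rapid h := by
    refine rapid_add (rapid_add (rapid_add (rapid_pos hy) ?_) hpR) ?_
    · refine rapid_mono (rapid_cmul (rapid_pos hF) (c := ν₁⁻¹) (by positivity)) fun n => ?_
      have h1 : (1 : ℝ) ≤ D ^ n := one_le_pow₀ hD.le
      rw [div_le_iff₀ (by positivity)]
      have h3 : ν₁⁻¹ * max (F n) 0 * (ν₁ * D ^ n) = max (F n) 0 * D ^ n := by
        field_simp
      rw [h3]
      exact le_mul_of_one_le_right (le_max_right _ _) h1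
    · refine rapid_of_eventually fun ρ _ => ⟨0, N₂ + 1, fun n hn => ?_⟩
      rw [if_neg (by omega)]
      simp
  set a : ℕ → ℝ := bd B D ν₁ A' h with ha
  have ha0 : ∀ n, 0 ≤ a n := bd_nonneg hB hD0 hν₁0 hh0
  have haA : ∀ n, a n ≤ A' n := bd_le hA'0
  refine ⟨a, ?_, ?_⟩
  · refine boot B D ν₁ (θ₁ / (1 - e)) a A' h (N₀ + N₁) hB hD hν₁0 ?_ ha0 haA hh0 hhR
      (fun n => min_le_right _ _) fun n hn => ?_
    · rw [div_lt_one he1, he]
      linarith
    · refine (hcr' n hn).trans (le_of_eq ?_)
      rw [hν₁]
      field_simp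
  · intro j
    induction j with
    | nil =>
      intro t ht
      exact (habs [] t ht).trans (le_max_left _ _)
    | cons k j ih =>
      intro t ht
      rw [List.length_cons]
      have e1 : a (j.length + 1) = min (max (A' (j.length + 1)) 0)
        (h (j.length + 1) + B ^ j.length * a j.length ^ 2 / (ν₁ * D ^ (j.length + 1))) := rfl
      rw [e1]
      refine le_min ((habs (k :: j) t ht).trans (le_max_left _ _)) ?_
      have hq0 : 0 ≤ B ^ j.length * a j.length ^ 2 / (ν₁ * D ^ (j.length + 1)) := by positivity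
      by_cases hj : j.length + 1 ≤ N₂
      · have h1 := habs (k :: j) t ht
        rw [List.length_cons] at h1
        have h2 : A' (j.length + 1) ≤ h (j.length + 1) := by
          simp only [hh]
          rw [if_pos hj]
          linarith [hy0 (j.length + 1), hF0 (j.length + 1), hp0 (j.length + 1)]
        linarith
      · have hvis : 0 < ν₁ * D ^ (j.length + 1) := by positivity
        set G : ℝ := max (F (j.length + 1)) 0 + B ^ j.length * a j.length ^ 2 with hG
        have hG0 : 0 ≤ G := add_nonneg (le_max_right _ _) (by positivity)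
        set E : ℝ := max (y (j.length + 1)) 0 + G / (ν₁ * D ^ (j.length + 1)) with hE
        have hE0 : 0 ≤ E := add_nonneg (le_max_right _ _) (by positivity)
        have hup : X (k :: j) t ≤ E := by
          refine Pool.Agent.N415.DY.t_scalar t E (X (k :: j))
            (fun s => rhs B D ν (fun i => f i s) (fun i => X i s) (k :: j)) ht ?_ ?_ ?_ t
            ⟨ht, le_rfl⟩
          · intro s hs
            exact (hX.2 (k :: j) s hs.1).mono Icc_subset_Ici_self
          · rw [hX.1]
            refine (hxy (k :: j)).trans ?_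
            rw [List.length_cons, hE]
            have : 0 ≤ G / (ν₁ * D ^ (j.length + 1)) := by positivity
            linarith [le_max_left (y (j.length + 1)) 0]
          · intro s hs hXE
            have hX0 : 0 ≤ X (k :: j) s := hE0.trans hXE.le
            have g1 : f (k :: j) s ≤ max (F (j.length + 1)) 0 :=
              ((le_abs_self _).trans (hf (k :: j) s hs.1)).trans (le_max_left _ _)
            have g2 : X j s ^ 2 ≤ a j.length ^ 2 := by
              rw [← sq_abs (X j s)]
              exact pow_le_pow_left₀ (abs_nonneg _) (ih s hs.1) 2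
            have g3 : B ^ j.length * X j s ^ 2 ≤ B ^ j.length * a j.length ^ 2 :=
              mul_le_mul_of_nonneg_left g2 (pow_pos hB _).le
            have g4 : -(M * p (j.length + 2)) ≤ ∑ l : Fin M, X (l :: k :: j) s := by
              have h1 : ∑ _l : Fin M, (-p (j.length + 2)) ≤ ∑ l : Fin M, X (l :: k :: j) s :=
                Finset.sum_le_sum fun l _ => hlow (l :: k :: j) s hs.1
              rw [Finset.sum_const, Finset.card_univ, Fintype.card_fin, nsmul_eq_mul] at h1
              linarith
            have g5 : -(e * (ν * D ^ (j.length + 1))) * X (k :: j) s ≤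
                B ^ (j.length + 1) * X (k :: j) s * ∑ l : Fin M, X (l :: k :: j) s := by
              have h1 := hloss j.length (by omega)
              have h2 : B ^ (j.length + 1) * X (k :: j) s * (-(M * p (j.length + 2))) ≤
                  B ^ (j.length + 1) * X (k :: j) s * ∑ l : Fin M, X (l :: k :: j) s :=
                mul_le_mul_of_nonneg_left g4 (by positivity)
              have h3 : B ^ (j.length + 1) * (M * p (j.length + 2)) * X (k :: j) s ≤
                  e * (ν * D ^ (j.length + 1)) * X (k :: j) s :=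
                mul_le_mul_of_nonneg_right h1 hX0
              linarith
            have g6 : G ≤ ν₁ * D ^ (j.length + 1) * X (k :: j) s := by
              have h1 : G / (ν₁ * D ^ (j.length + 1)) ≤ X (k :: j) s := by
                refine le_trans ?_ hXE.le
                rw [hE]
                linarith [le_max_right (y (j.length + 1)) 0]
              rw [div_le_iff₀ hvis] at h1
              linarith
            have g7 : ν₁ * D ^ (j.length + 1) * X (k :: j) s
                = ν * D ^ (j.length + 1) * X (k :: j) s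
                  - e * (ν * D ^ (j.length + 1)) * X (k :: j) s := by
              rw [hν₁]; ring
            simp only [rhs, inflow, List.length_cons]
            linarith
        rw [abs_le]
        have hl := hlow (k :: j) t ht
        rw [List.length_cons] at hl
        have hE2 : E = max (y (j.length + 1)) 0 + max (F (j.length + 1)) 0 / (ν₁ * D ^ (j.length + 1))
            + B ^ j.length * a j.length ^ 2 / (ν₁ * D ^ (j.length + 1)) := by
          rw [hE, hG, add_div]; ring
        have hh1 : h (j.length + 1) = max (y (j.length + 1)) 0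
            + max (F (j.length + 1)) 0 / (ν₁ * D ^ (j.length + 1)) + p (j.length + 1)
            + (if j.length + 1 ≤ N₂ then A' (j.length + 1) else 0) := rfl
        have i1 := hy0 (j.length + 1)
        have i2 := hF0 (j.length + 1)
        have i3 := hp0 (j.length + 1)
        have i4 := hfin0 (j.length + 1)
        constructor
        · rw [hh1]; linarith
        · rw [hh1]; linarith

end Pool.Agent.N26.SG
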